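import Mathlib
import Pool.Agent.E8helper72.HR.Stm

/-!
# Project HR, piece HR2: unimodality of the angular measure of a closed convex set
-/

set_option autoImplicit false

open MeasureTheory Set Real Filter Topology
open scoped ENNReal

namespace Pool.Agent.E8helper93.HR

open H72HR

/-- The set of the angles of the points of `K` on the circle of radius `r`. -/
def EK (K : Set ℂ) (r : ℝ) : Set ℝ :=
  {θ : ℝ | θ ∈ Ioo (-π) π ∧ (r : ℂ) * Complex.exp (θ * Complex.I) ∈ K}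

lemma wK_eq (K : Set ℂ) (r : ℝ) : wK K r = volume (EK K r) := rfl

lemma re_pt (r θ : ℝ) : ((r : ℂ) * Complex.exp (θ * Complex.I)).re = r * cos θ := by
  rw [Complex.re_ofReal_mul, Complex.exp_ofReal_mul_I_re]

lemma cont_pt (r : ℝ) : Continuous fun θ : ℝ => (r : ℂ) * Complex.exp (θ * Complex.I) := by
  fun_prop

lemma mem_half {K : Set ℂ} {ε : ℝ} (hε : 0 < ε) (hK : ∀ z ∈ K, ε ≤ z.re) {r : ℝ} (hr : 0 < r)
    {θ : ℝ} (h : θ ∈ EK K r) : θ ∈ Ioo (-(π / 2)) (π / 2) := by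
  obtain ⟨⟨h1, h2⟩, h3⟩ := h
  have h4 := hK _ h3
  rw [re_pt] at h4
  have hc : 0 < cos θ := by
    by_contra hn
    push Not at hn
    nlinarith
  constructor
  · by_contra hn
    push Not at hn
    have : cos θ ≤ 0 := by
      rw [← cos_neg]
      exact cos_nonpos_of_pi_div_two_le_of_le (by linarith) (by linarith [pi_pos])
    linarith
  · by_contra hn
    push Not at hn
    have : cos θ ≤ 0 := cos_nonpos_of_pi_div_two_le_of_le hn (by linarith [pi_pos])
    linarith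

lemma compact_EK {K : Set ℂ} (hc : IsClosed K) {ε : ℝ} (hε : 0 < ε) (hK : ∀ z ∈ K, ε ≤ z.re)
    {r : ℝ} (hr : 0 < r) : IsCompact (EK K r) := by
  have h : EK K r = Icc (-(π / 2)) (π / 2) ∩
      (fun θ : ℝ => (r : ℂ) * Complex.exp (θ * Complex.I)) ⁻¹' K := by
    ext θ
    constructor
    · intro h
      exact ⟨Ioo_subset_Icc_self (mem_half hε hK hr h), h.2⟩
    · rintro ⟨⟨h1, h2⟩, h3⟩
      exact ⟨⟨by linarith [pi_pos], by linarith [pi_pos]⟩, h3⟩
  rw [h]
  exact isCompact_Icc.inter_right (hc.preimage (cont_pt r))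

lemma meas_EK {K : Set ℂ} (hc : IsClosed K) (r : ℝ) : MeasurableSet (EK K r) :=
  measurableSet_Ioo.inter (hc.preimage (cont_pt r)).measurableSet

/-- The point at the height `y` on the line with the foot at the angle `ν` and distance `d`. -/
noncomputable def pt (ν d y : ℝ) : ℂ := Complex.exp (ν * Complex.I) * (d + y * Complex.I)

lemma pt_angle (r ν v : ℝ) :
    (r : ℂ) * Complex.exp (((ν + v : ℝ) : ℂ) * Complex.I) = pt ν (r * cos v) (r * sin v) := by
  unfold pt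
  push_cast
  rw [add_mul, Complex.exp_add, Complex.exp_mul_I (v : ℂ)]
  ring

lemma pt_between {K : Set ℂ} (hK : Convex ℝ K) {ν d a b c : ℝ} (ha : pt ν d a ∈ K)
    (hc : pt ν d c ∈ K) (hab : a ≤ b) (hbc : b ≤ c) : pt ν d b ∈ K := by
  have hb : b ∈ segment ℝ a c := by
    rw [segment_eq_Icc (hab.trans hbc)]
    exact ⟨hab, hbc⟩
  obtain ⟨s, t, hs, ht, hst, rfl⟩ := hb
  have h := hK ha hc hs ht hst
  have e : pt ν d (s • a + t • c) = s • pt ν d a + t • pt ν d c := by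
    unfold pt
    simp only [smul_eq_mul, Complex.real_smul]
    push_cast
    have h1 : (s : ℂ) + t = 1 := by exact_mod_cast hst
    linear_combination -(Complex.exp (ν * Complex.I) * d) * h1
  rw [e]
  exact h

lemma key {K : Set ℂ} (hK : Convex ℝ K) {ν ra rb rc va vb vc d : ℝ}
    (hda : ra * cos va = d) (hdb : rb * cos vb = d) (hdc : rc * cos vc = d)
    (hab : ra * sin va ≤ rb * sin vb) (hbc : rb * sin vb ≤ rc * sin vc)
    (ha : (ra : ℂ) * Complex.exp (((ν + va : ℝ) : ℂ) * Complex.I) ∈ K)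
    (hc : (rc : ℂ) * Complex.exp (((ν + vc : ℝ) : ℂ) * Complex.I) ∈ K) :
    (rb : ℂ) * Complex.exp (((ν + vb : ℝ) : ℂ) * Complex.I) ∈ K := by
  rw [pt_angle, hda] at ha
  rw [pt_angle, hdc] at hc
  rw [pt_angle, hdb]
  exact pt_between hK ha hc hab hbc

lemma Vr_facts {ρ u : ℝ} (h0 : 0 < ρ) (h1 : ρ < 1) (hu : u ∈ Icc 0 (π / 2)) :
    0 ≤ Vr ρ u ∧ Vr ρ u ≤ π / 2 ∧ u ≤ Vr ρ u ∧ cos (Vr ρ u) = ρ * cos u ∧ 0 ≤ sin (Vr ρ u) := by
  have hcu : 0 ≤ cos u := cos_nonneg_of_mem_Icc ⟨by linarith [hu.1, pi_pos], hu.2⟩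
  have hcu1 : cos u ≤ 1 := cos_le_one u
  have h2 : ρ * cos u ≤ cos u := by nlinarith
  have h3 : 0 ≤ ρ * cos u := by positivity
  have h4 : 0 ≤ Vr ρ u := arccos_nonneg _
  have h5 : Vr ρ u ≤ π / 2 := arccos_le_pi_div_two.2 h3
  refine ⟨h4, h5, ?_, cos_arccos (by linarith) (by linarith), ?_⟩
  · have := arccos_le_arccos h2
    rwa [arccos_cos hu.1 (by linarith [hu.2, pi_pos])] at this
  · exact sin_nonneg_of_nonneg_of_le_pi h4 (by linarith [pi_pos])

lemma le_of_sq {x y : ℝ} (hy : 0 ≤ y) (h : x ^ 2 ≤ y ^ 2) : x ≤ y :=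
  le_of_sq_le_sq' hy h
where
  le_of_sq_le_sq' (hy : 0 ≤ y) (h : x ^ 2 ≤ y ^ 2) : x ≤ y := by
    by_contra hn
    push Not at hn
    nlinarith

lemma sin_ord {r s u v : ℝ} (hs : 0 ≤ s) (hrs : r ≤ s) (hr : 0 ≤ r)
    (hv : 0 ≤ sin v) (hd : r * cos u = s * cos v) :
    r * sin u ≤ s * sin v := by
  apply le_of_sq (mul_nonneg hs hv)
  have h1 := sin_sq_add_cos_sq u
  have h2 := sin_sq_add_cos_sq v
  have h3 : (r * sin u) ^ 2 = r ^ 2 - (r * cos u) ^ 2 := by
    linear_combination r ^ 2 * h1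
  have h4 : (s * sin v) ^ 2 = s ^ 2 - (s * cos v) ^ 2 := by
    linear_combination s ^ 2 * h2
  rw [h3, h4, hd]
  nlinarith

/-- The equal level lemma. -/
lemma eqlevel (h : S_EQ) {K : Set ℂ} (hc : IsClosed K) (hK : Convex ℝ K) {ε : ℝ} (hε : 0 < ε)
    (hre : ∀ z ∈ K, ε ≤ z.re) {r₁ r₂ r₃ : ℝ} (h1 : 0 < r₁) (h12 : r₁ < r₂) (h23 : r₂ < r₃)
    (heq : wK K r₁ = wK K r₃) : wK K r₁ ≤ wK K r₂ := by
  have h2 : 0 < r₂ := h1.trans h12
  have h3 : 0 < r₃ := h2.trans h23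
  have hρ0 : 0 < r₁ / r₃ := by positivity
  have hσ0 : 0 < r₁ / r₂ := by positivity
  have hρσ : r₁ / r₃ < r₁ / r₂ := div_lt_div_of_pos_left h1 h2 h23
  have hσ1 : r₁ / r₂ < 1 := (div_lt_one h2).2 h12
  have hρ1 : r₁ / r₃ < 1 := hρσ.trans hσ1
  refine h (r₁ / r₃) (r₁ / r₂) hρ0 hρσ hσ1 (EK K r₁) (EK K r₃) (EK K r₂)
    (compact_EK hc hε hre h1) (compact_EK hc hε hre h3) (fun θ hθ => mem_half hε hre h1 hθ)
    (fun θ hθ => mem_half hε hre h3 hθ) ?_ ?_ ?_ ?_ heq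
  · intro α hα β hβ u hu hβα
    obtain ⟨a1, a2, a3, a4, a5⟩ := Vr_facts hρ0 hρ1 hu
    obtain ⟨b1, b2, b3, b4, b5⟩ := Vr_facts hσ0 hσ1 hu
    have hα' := mem_half hε hre h1 hα
    refine ⟨⟨by linarith [hα'.1, hu.2], by linarith [hα'.2, hu.1]⟩, ?_⟩
    have e1 : α = (α - u) + u := by ring
    have e3 : β = (α - u) + Vr (r₁ / r₃) u := by linarith
    have e2 : α + (Vr (r₁ / r₂) u - u) = (α - u) + Vr (r₁ / r₂) u := by ring
    have d2 : r₂ * cos (Vr (r₁ / r₂) u) = r₁ * cos u := by rw [b4]; field_simp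
    have d3 : r₃ * cos (Vr (r₁ / r₃) u) = r₁ * cos u := by rw [a4]; field_simp
    have m1 := hα.2
    have m3 := hβ.2
    rw [e1] at m1
    rw [e3] at m3
    rw [e2]
    exact key hK rfl d2 d3 (sin_ord h2.le h12.le h1.le b5 d2.symm)
      (sin_ord h3.le h23.le h2.le a5 (d2.trans d3.symm)) m1 m3
  · intro α hα β hβ u hu hβα
    obtain ⟨a1, a2, a3, a4, a5⟩ := Vr_facts hρ0 hρ1 hu
    obtain ⟨b1, b2, b3, b4, b5⟩ := Vr_facts hσ0 hσ1 hu
    have hα' := mem_half hε hre h1 hα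
    refine ⟨⟨by linarith [hα'.1, hu.1], by linarith [hα'.2, hu.2]⟩, ?_⟩
    have e1 : α = (α + u) + -u := by ring
    have e3 : β = (α + u) + -Vr (r₁ / r₃) u := by linarith
    have e2 : α - (Vr (r₁ / r₂) u - u) = (α + u) + -Vr (r₁ / r₂) u := by ring
    have d1 : r₁ * cos (-u) = r₁ * cos u := by rw [cos_neg]
    have d2 : r₂ * cos (Vr (r₁ / r₂) u) = r₁ * cos u := by rw [b4]; field_simp
    have d3 : r₃ * cos (Vr (r₁ / r₃) u) = r₁ * cos u := by rw [a4]; field_simp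
    have m1 := hα.2
    have m3 := hβ.2
    rw [e1] at m1
    rw [e3] at m3
    rw [e2]
    refine key hK (d := r₁ * cos u) (by rw [cos_neg, d3]) (by rw [cos_neg, d2]) d1 ?_ ?_ m3 m1
    · rw [sin_neg, sin_neg]
      have := sin_ord h3.le h23.le h2.le a5 (d2.trans d3.symm)
      linarith
    · rw [sin_neg, sin_neg]
      have := sin_ord h2.le h12.le h1.le b5 d2.symm
      linarith
  · intro α hα β hβ u hu hβα
    obtain ⟨a1, a2, a3, a4, a5⟩ := Vr_facts hρ0 hρ1 hu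
    have hα' := mem_half hε hre h1 hα
    have hβ' := mem_half hε hre h3 hβ
    refine ⟨⟨by linarith [hα'.1, hu.1, pi_pos], by linarith [hβ'.2, hu.2, pi_pos]⟩, ?_⟩
    have su : 0 ≤ sin u := sin_nonneg_of_nonneg_of_le_pi hu.1 (by linarith [hu.2, pi_pos])
    have e1 : α = (α + u) + -u := by ring
    have e3 : β = (α + u) + Vr (r₁ / r₃) u := by linarith
    have e2 : α + 2 * u = (α + u) + u := by ring
    have d3 : r₃ * cos (Vr (r₁ / r₃) u) = r₁ * cos u := by rw [a4]; field_simp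
    have m1 := hα.2
    have m3 := hβ.2
    rw [e1] at m1
    rw [e3] at m3
    rw [e2]
    refine key hK (d := r₁ * cos u) (by rw [cos_neg]) rfl d3 ?_ ?_ m1 m3
    · rw [sin_neg]
      nlinarith
    · exact sin_ord h3.le (h12.trans h23).le h1.le a5 d3.symm
  · intro α hα β hβ u hu hβα
    obtain ⟨a1, a2, a3, a4, a5⟩ := Vr_facts hρ0 hρ1 hu
    have hα' := mem_half hε hre h1 hα
    have hβ' := mem_half hε hre h3 hβ
    refine ⟨⟨by linarith [hβ'.1, hu.2, pi_pos], by linarith [hα'.2, hu.1, pi_pos]⟩, ?_⟩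
    have su : 0 ≤ sin u := sin_nonneg_of_nonneg_of_le_pi hu.1 (by linarith [hu.2, pi_pos])
    have e1 : α = (α - u) + u := by ring
    have e3 : β = (α - u) + -Vr (r₁ / r₃) u := by linarith
    have e2 : α - 2 * u = (α - u) + -u := by ring
    have d3 : r₃ * cos (Vr (r₁ / r₃) u) = r₁ * cos u := by rw [a4]; field_simp
    have m1 := hα.2
    have m3 := hβ.2
    rw [e1] at m1
    rw [e3] at m3
    rw [e2]
    refine key hK (d := r₁ * cos u) (by rw [cos_neg, d3]) (by rw [cos_neg]) rfl ?_ ?_ m3 m1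
    · rw [sin_neg, sin_neg]
      have := sin_ord h3.le (h12.trans h23).le h1.le a5 d3.symm
      linarith
    · rw [sin_neg]
      nlinarith

/-- Few angles on a line. -/
lemma null_line {f : ℂ →L[ℝ] ℝ} (hf : f ≠ 0) (c : ℝ) {r : ℝ} (hr : 0 < r) :
    volume {θ : ℝ | f ((r : ℂ) * Complex.exp (θ * Complex.I)) = c} = 0 := by
  set w : ℂ := ⟨f 1, f Complex.I⟩ with hw
  have hfz : ∀ z : ℂ, f z = z.re * f 1 + z.im * f Complex.I := by
    intro z
    have hz : z = z.re • (1 : ℂ) + z.im • Complex.I := by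
      simp only [Complex.real_smul, mul_one]
      exact (Complex.re_add_im z).symm
    conv_lhs => rw [hz]
    rw [map_add, map_smul, map_smul, smul_eq_mul, smul_eq_mul]
  have hw0 : w ≠ 0 := by
    intro h0
    apply hf
    ext z
    have h1 : f 1 = 0 := congrArg Complex.re h0
    have h2 : f Complex.I = 0 := congrArg Complex.im h0
    rw [hfz z, h1, h2]
    simp
  have hwn : 0 < ‖w‖ := norm_pos_iff.2 hw0
  have hre : ‖w‖ * cos w.arg = f 1 := by
    rw [Complex.cos_arg hw0]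
    field_simp
    rfl
  have him : ‖w‖ * sin w.arg = f Complex.I := by
    rw [Complex.sin_arg]
    field_simp
    rfl
  have hval : ∀ θ : ℝ, f ((r : ℂ) * Complex.exp (θ * Complex.I)) = r * ‖w‖ * cos (θ - w.arg) := by
    intro θ
    rw [hfz, re_pt, Complex.im_ofReal_mul, Complex.exp_ofReal_mul_I_im, cos_sub, ← hre, ← him]
    ring
  apply Set.Countable.measure_zero
  by_cases hne : ∃ θ₀ : ℝ, f ((r : ℂ) * Complex.exp (θ₀ * Complex.I)) = c
  · obtain ⟨θ₀, h0⟩ := hne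
    apply Set.Countable.mono (s₂ := ⋃ k : ℤ, ({2 * k * π + (θ₀ - w.arg) + w.arg,
      2 * k * π - (θ₀ - w.arg) + w.arg} : Set ℝ))
    · intro θ hθ
      have h1 : f ((r : ℂ) * Complex.exp (θ * Complex.I)) = c := hθ
      rw [hval] at h0 h1
      have h2 : cos (θ₀ - w.arg) = cos (θ - w.arg) := by
        have h3 : r * ‖w‖ ≠ 0 := by positivity
        exact mul_left_cancel₀ h3 (h0.trans h1.symm)
      obtain ⟨k, hk⟩ := cos_eq_cos_iff.1 h2
      refine mem_iUnion.2 ⟨k, ?_⟩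
      rcases hk with hk | hk
      · left
        linarith
      · right
        show θ = _
        linarith
    · exact countable_iUnion fun k => (Set.toFinite _).countable
  · have : {θ : ℝ | f ((r : ℂ) * Complex.exp (θ * Complex.I)) = c} = ∅ := by
      ext θ
      simp only [mem_setOf_eq, mem_empty_iff_false, iff_false]
      exact fun h => hne ⟨θ, h⟩
    rw [this]
    exact countable_empty

/-- A polygon. -/
def LL (g : ℕ → (ℂ →L[ℝ] ℝ) × ℝ) (n : ℕ) : Set ℂ := {z | ∀ i < n, (g i).2 ≤ (g i).1 z}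

lemma LL_closed (g : ℕ → (ℂ →L[ℝ] ℝ) × ℝ) (n : ℕ) : IsClosed (LL g n) := by
  have : LL g n = ⋂ i, ⋂ (_ : i < n), {z | (g i).2 ≤ (g i).1 z} := by
    ext z
    simp [LL]
  rw [this]
  exact isClosed_iInter fun i => isClosed_iInter fun _ =>
    isClosed_le continuous_const (g i).1.continuous

lemma LL_convex (g : ℕ → (ℂ →L[ℝ] ℝ) × ℝ) (n : ℕ) : Convex ℝ (LL g n) := by
  intro x hx y hy a b ha hb hab i hi
  rw [map_add, map_smul, map_smul, smul_eq_mul, smul_eq_mul]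
  have h1 := hx i hi
  have h2 := hy i hi
  calc (g i).2 = a * (g i).2 + b * (g i).2 := by rw [← add_mul, hab, one_mul]
    _ ≤ _ := add_le_add (mul_le_mul_of_nonneg_left h1 ha) (mul_le_mul_of_nonneg_left h2 hb)

lemma LL_cont {g : ℕ → (ℂ →L[ℝ] ℝ) × ℝ} (hg : ∀ i, (g i).1 ≠ 0) (n : ℕ) {r₀ : ℝ} (hr : 0 < r₀) :
    ContinuousAt (wK (LL g n)) r₀ := by
  show Tendsto (fun r => volume (EK (LL g n) r)) (𝓝 r₀) (𝓝 (volume (EK (LL g n) r₀)))
  refine tendsto_measure_of_ae_tendsto_indicator (𝓝 r₀) (meas_EK (LL_closed g n) r₀)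
    (fun r => meas_EK (LL_closed g n) r) (B := Ioo (-π) π) measurableSet_Ioo (by simp)
    (Eventually.of_forall fun r θ hθ => hθ.1) ?_
  have hnull : ∀ᵐ θ : ℝ, ∀ i, (g i).1 ((r₀ : ℂ) * Complex.exp (θ * Complex.I)) ≠ (g i).2 := by
    rw [ae_all_iff]
    intro i
    rw [ae_iff]
    simpa only [not_not, ne_eq] using null_line (hg i) (g i).2 hr
  filter_upwards [hnull] with θ hθ
  have hev : ∀ i, ∀ᶠ r : ℝ in 𝓝 r₀,
      ((g i).2 ≤ (g i).1 ((r : ℂ) * Complex.exp (θ * Complex.I)) ↔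
        (g i).2 ≤ (g i).1 ((r₀ : ℂ) * Complex.exp (θ * Complex.I))) := by
    intro i
    have hcont : Continuous fun r : ℝ => (g i).1 ((r : ℂ) * Complex.exp (θ * Complex.I)) := by
      fun_prop
    rcases lt_or_gt_of_ne (hθ i) with hlt | hgt
    · filter_upwards [hcont.continuousAt.eventually_lt continuousAt_const hlt] with r hr'
      exact ⟨fun h => absurd h (not_le.2 hr'), fun h => absurd h (not_le.2 hlt)⟩
    · filter_upwards [continuousAt_const.eventually_lt hcont.continuousAt hgt] with r hr'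
      exact ⟨fun _ => hgt.le, fun _ => hr'.le⟩
  have hall : ∀ᶠ r : ℝ in 𝓝 r₀, ∀ i ∈ Finset.range n,
      ((g i).2 ≤ (g i).1 ((r : ℂ) * Complex.exp (θ * Complex.I)) ↔
        (g i).2 ≤ (g i).1 ((r₀ : ℂ) * Complex.exp (θ * Complex.I))) := by
    rw [Filter.eventually_all_finset]
    exact fun i _ => hev i
  filter_upwards [hall] with r hr'
  constructor
  · rintro ⟨h1, h2⟩
    exact ⟨h1, fun i hi => (hr' i (Finset.mem_range.2 hi)).1 (h2 i hi)⟩
  · rintro ⟨h1, h2⟩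
    exact ⟨h1, fun i hi => (hr' i (Finset.mem_range.2 hi)).2 (h2 i hi)⟩

/-- A closed convex set is an intersection of countably many half planes. -/
lemma exists_half {K : Set ℂ} (hc : IsClosed K) (hK : Convex ℝ K) (hne : K.Nonempty)
    (h0 : (0 : ℂ) ∉ K) :
    ∃ f : ℕ → (ℂ →L[ℝ] ℝ) × ℝ, (∀ i, (f i).1 ≠ 0) ∧ K = {z | ∀ i, (f i).2 ≤ (f i).1 z} := by
  set s : {p : (ℂ →L[ℝ] ℝ) × ℝ // p.1 ≠ 0 ∧ ∀ z ∈ K, p.2 ≤ p.1 z} → Set ℂ :=
    fun p => {x | p.1.1 x < p.1.2} with hs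
  have hopen : ∀ p, IsOpen (s p) := fun p => isOpen_lt p.1.1.continuous continuous_const
  have hun : ⋃ p, s p = Kᶜ := by
    ext x
    constructor
    · intro hx hxK
      obtain ⟨p, hp⟩ := mem_iUnion.1 hx
      exact absurd (p.2.2 x hxK) (not_le.2 hp)
    · intro hx
      obtain ⟨f, u, h1, h2⟩ := geometric_hahn_banach_point_closed hK hc hx
      refine mem_iUnion.2 ⟨⟨(f, u), ?_, fun z hz => (h2 z hz).le⟩, h1⟩
      rintro hf
      obtain ⟨b, hb⟩ := hne
      have h3 := h2 b hb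
      have hf' : f = 0 := hf
      rw [hf'] at h1 h3
      simp only [ContinuousLinearMap.zero_apply] at h1 h3
      exact absurd h1 (not_lt.2 h3.le)
  obtain ⟨T, hT, hTu⟩ := TopologicalSpace.isOpen_iUnion_countable s hopen
  have hTne : T.Nonempty := by
    by_contra hn
    rw [Set.not_nonempty_iff_eq_empty] at hn
    rw [hn, hun] at hTu
    simp only [mem_empty_iff_false, iUnion_of_empty, iUnion_empty] at hTu
    exact (hTu ▸ (show (0 : ℂ) ∈ Kᶜ from h0) : (0 : ℂ) ∈ (∅ : Set ℂ))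
  obtain ⟨q, hq⟩ := hT.exists_eq_range hTne
  refine ⟨fun i => (q i).1, fun i => (q i).2.1, ?_⟩
  ext z
  constructor
  · intro hz i
    exact (q i).2.2 z hz
  · intro hz
    by_contra hzK
    have : z ∈ ⋃ p ∈ T, s p := by
      rw [hTu, hun]
      exact hzK
    obtain ⟨p, hp⟩ := mem_iUnion.1 this
    obtain ⟨hpT, hpz⟩ := mem_iUnion.1 hp
    rw [hq] at hpT
    obtain ⟨i, rfl⟩ := hpT
    exact absurd (hz i) (not_le.2 hpz)

/-- HR2. -/
theorem t_UNI (h : S_EQ) : S_UNI := by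
  rintro K hc hK ⟨ε, hε, hre⟩ r₁ r₂ r₃ h1 h12 h23
  have h2 : 0 < r₂ := h1.trans h12
  have h3 : 0 < r₃ := h2.trans h23
  rcases K.eq_empty_or_nonempty with rfl | hne
  · have : ∀ r, wK ∅ r = 0 := by
      intro r
      simp [wK]
    simp [this]
  have h0 : (0 : ℂ) ∉ K := by
    intro h0
    have := hre 0 h0
    simp only [Complex.zero_re] at this
    linarith
  obtain ⟨f, hf0, hfK⟩ := exists_half hc hK hne h0
  set g : ℕ → (ℂ →L[ℝ] ℝ) × ℝ := fun i => Nat.casesOn i (Complex.reCLM, ε) f with hg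
  have hg0 : ∀ i, (g i).1 ≠ 0 := by
    intro i
    cases i with
    | zero =>
      intro h
      have : Complex.reCLM (1 : ℂ) = (0 : ℂ →L[ℝ] ℝ) 1 := congrArg (fun F => F (1 : ℂ)) h
      simp at this
    | succ i => exact hf0 i
  have hgK : K = {z | ∀ i, (g i).2 ≤ (g i).1 z} := by
    ext z
    constructor
    · intro hz i
      cases i with
      | zero => exact hre z hz
      | succ i =>
        rw [hfK] at hz
        exact hz i
    · intro hz
      rw [hfK]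
      exact fun i => hz (i + 1)
  have hKL : ∀ n, K ⊆ LL g n := by
    intro n z hz i _
    rw [hgK] at hz
    exact hz i
  have hLre : ∀ n, ∀ z ∈ LL g (n + 1), ε ≤ z.re := fun n z hz => hz 0 (Nat.succ_pos n)
  have hmono : ∀ n r, wK K r ≤ wK (LL g n) r := by
    intro n r
    exact measure_mono fun θ hθ => ⟨hθ.1, hKL n hθ.2⟩
  by_contra hlt
  push Not at hlt
  have hM1 : wK K r₂ < wK K r₁ := lt_of_lt_of_le hlt (min_le_left _ _)
  set M := min (wK K r₁) (wK K r₃) with hM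
  have htend : Tendsto (fun n => wK (LL g (n + 1)) r₂) atTop (𝓝 (wK K r₂)) := by
    have hEK : EK K r₂ = ⋂ n, EK (LL g (n + 1)) r₂ := by
      ext θ
      simp only [mem_iInter]
      constructor
      · intro hθ n
        exact ⟨hθ.1, hKL _ hθ.2⟩
      · intro hθ
        refine ⟨(hθ 0).1, ?_⟩
        rw [hgK]
        exact fun i => (hθ i).2 i (Nat.lt_succ_self i)
    rw [wK_eq K r₂, hEK]
    refine tendsto_measure_iInter_atTop
      (fun n => (meas_EK (LL_closed g (n + 1)) r₂).nullMeasurableSet) ?_ ⟨0, ?_⟩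
    · intro m n hmn θ hθ
      exact ⟨hθ.1, fun i hi => hθ.2 i (lt_of_lt_of_le hi (Nat.succ_le_succ hmn))⟩
    · refine ne_top_of_le_ne_top (b := volume (Ioo (-π) π)) (by simp) (measure_mono fun θ hθ => hθ.1)
  obtain ⟨n, hn⟩ := (htend.eventually (gt_mem_nhds hlt)).exists
  have hcontOn : ∀ a b : ℝ, 0 < a → ContinuousOn (wK (LL g (n + 1))) (Icc a b) := by
    intro a b ha r hr
    exact (LL_cont hg0 (n + 1) (lt_of_lt_of_le ha hr.1)).continuousWithinAt
  obtain ⟨s₁, hs₁, hs₁M⟩ := intermediate_value_Icc' h12.le (hcontOn r₁ r₂ h1)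
    ⟨hn.le, (min_le_left _ _).trans (hmono (n + 1) r₁)⟩
  obtain ⟨s₃, hs₃, hs₃M⟩ := intermediate_value_Icc h23.le (hcontOn r₂ r₃ h2)
    ⟨hn.le, (min_le_right _ _).trans (hmono (n + 1) r₃)⟩
  have hs₁2 : s₁ < r₂ := by
    rcases hs₁.2.lt_or_eq with h | h
    · exact h
    · rw [h] at hs₁M
      exact absurd hs₁M hn.ne
  have hs₃2 : r₂ < s₃ := by
    rcases hs₃.1.lt_or_eq with h | h
    · exact h
    · rw [← h] at hs₃M
      exact absurd hs₃M hn.ne
  have hfin := eqlevel h (LL_closed g (n + 1)) (LL_convex g (n + 1)) hε (hLre n)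
    (lt_of_lt_of_le h1 hs₁.1) hs₁2 hs₃2 (hs₁M.trans hs₃M.symm)
  rw [hs₁M] at hfin
  exact absurd hn (not_lt.2 hfin)

end Pool.Agent.E8helper93.HR
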